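import Pool.Agent.FTU.Stmts

/-!
Block FTU, row PRJ (MP_8cfbae_mp).
-/

set_option autoImplicit false

open MeasureTheory Complex ProbabilityTheory

namespace Pool.Agent.FTU.H80

open Pool.Agent.FTU
open Pool.Agent.Helper49_Pauli
open Pool.Agent.MBX
open Pool.Agent.Loc (γn γ1)

noncomputable section

/-! ### projections -/

theorem proj_facts {E : Type*} [NormedAddCommGroup E] [InnerProductSpace ℂ E] {d : ℕ}
    (U : Submodule ℂ E) [FiniteDimensional ℂ U] (e : OrthonormalBasis (Fin d) ℂ U) (x : E) :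
    (∑ i, inner ℂ (e i : E) x • (e i : E)) ∈ U ∧
    (∀ u ∈ U, inner ℂ u (∑ i, inner ℂ (e i : E) x • (e i : E)) = inner ℂ u x) ∧
    ‖∑ i, inner ℂ (e i : E) x • (e i : E)‖ ≤ ‖x‖ ∧
    ∀ v ∈ U, ‖x - ∑ i, inner ℂ (e i : E) x • (e i : E)‖ ≤ ‖x - v‖ := by
  have h0 : ∑ i, inner ℂ (e i : E) x • (e i : E) = U.starProjection x := by
    rw [e.starProjection_eq_sum_rankOne]
    simp
  rw [h0]
  have hm : U.starProjection x ∈ U := Submodule.starProjection_apply_mem U x
  have horth : ∀ u ∈ U, inner ℂ (x - U.starProjection x) u = (0 : ℂ) :=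
    fun u hu => Submodule.starProjection_inner_eq_zero x u hu
  have horth' : ∀ u ∈ U, inner ℂ u (x - U.starProjection x) = (0 : ℂ) := by
    intro u hu
    rw [← inner_conj_symm, horth u hu, map_zero]
  refine ⟨hm, ?_, ?_, ?_⟩
  · intro u hu
    have h1 := horth' u hu
    rw [inner_sub_right, sub_eq_zero] at h1
    exact h1.symm
  · have h1 := norm_add_sq_eq_norm_sq_add_norm_sq_of_inner_eq_zero (𝕜 := ℂ)
      (x - U.starProjection x) (U.starProjection x) (horth _ hm)
    rw [sub_add_cancel] at h1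
    have h2 := norm_nonneg (x - U.starProjection x)
    nlinarith [norm_nonneg x, norm_nonneg (U.starProjection x)]
  · intro v hv
    have h1 := norm_add_sq_eq_norm_sq_add_norm_sq_of_inner_eq_zero (𝕜 := ℂ)
      (x - U.starProjection x) (U.starProjection x - v) (horth _ (U.sub_mem hm hv))
    rw [sub_add_sub_cancel] at h1
    have h2 := norm_nonneg (U.starProjection x - v)
    nlinarith [norm_nonneg (x - v), norm_nonneg (x - U.starProjection x)]

variable {ι : Type} [Fintype ι] [DecidableEq ι]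

/-! ### the polynomials -/

omit [Fintype ι] [DecidableEq ι] in
theorem pe_add (P Q : MvPolynomial ι ℂ) (y : ι → ℝ) : pe (P + Q) y = pe P y + pe Q y := by
  simp [pe]

omit [Fintype ι] [DecidableEq ι] in
theorem pe_smul (c : ℂ) (P : MvPolynomial ι ℂ) (y : ι → ℝ) : pe (c • P) y = c * pe P y := by
  simp [pe, MvPolynomial.smul_eval]

omit [Fintype ι] [DecidableEq ι] in
theorem pe_sub (P Q : MvPolynomial ι ℂ) (y : ι → ℝ) : pe (P - Q) y = pe P y - pe Q y := by
  simp [pe]

omit [Fintype ι] [DecidableEq ι] in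
theorem pe_mul (P Q : MvPolynomial ι ℂ) (y : ι → ℝ) : pe (P * Q) y = pe P y * pe Q y := by
  simp [pe]

omit [Fintype ι] [DecidableEq ι] in
theorem pe_X (i : ι) (y : ι → ℝ) : pe (MvPolynomial.X i) y = (y i : ℂ) := by
  simp [pe]

omit [Fintype ι] [DecidableEq ι] in
theorem pe_sum {d : ℕ} (c : Fin d → ℂ) (b : Fin d → MvPolynomial ι ℂ) (y : ι → ℝ) :
    pe (∑ j, c j • b j) y = ∑ j, pe (b j) y * c j := by
  unfold pe
  rw [map_sum]
  refine Finset.sum_congr rfl fun j _ => ?_
  rw [MvPolynomial.smul_eval, mul_comm]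

omit [Fintype ι] in
theorem pe_der (Q : MvPolynomial ι ℂ) (i : ι) (y : ι → ℝ) :
    HasDerivAt (fun t : ℝ => pe Q (Function.update y i t)) (pe (MvPolynomial.pderiv i Q) y) (y i) := by
  induction Q using MvPolynomial.induction_on with
  | C a =>
    have h1 : (fun t : ℝ => pe (MvPolynomial.C a : MvPolynomial ι ℂ) (Function.update y i t)) =
        fun _ => a := by
      funext t
      simp [pe]
    rw [h1]
    have h2 : pe (MvPolynomial.pderiv i (MvPolynomial.C a : MvPolynomial ι ℂ)) y = 0 := by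
      simp [pe]
    rw [h2]
    exact hasDerivAt_const _ _
  | add P Q hP hQ =>
    have h1 : (fun t : ℝ => pe (P + Q) (Function.update y i t)) =
        fun t => pe P (Function.update y i t) + pe Q (Function.update y i t) := by
      funext t
      exact pe_add _ _ _
    rw [h1, map_add, pe_add]
    exact hP.add hQ
  | mul_X P j hP =>
    have h1 : (fun t : ℝ => pe (P * MvPolynomial.X j) (Function.update y i t)) =
        fun t => pe P (Function.update y i t) * ((Function.update y i t j : ℝ) : ℂ) := by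
      funext t
      rw [pe_mul, pe_X]
    have h3 : HasDerivAt (fun t : ℝ => ((Function.update y i t j : ℝ) : ℂ))
        (if j = i then 1 else 0) (y i) := by
      by_cases h : j = i
      · subst h
        simp only [Function.update_self, if_true]
        exact (hasDerivAt_id (y j)).ofReal_comp
      · simp only [Function.update_of_ne h, if_neg h]
        exact hasDerivAt_const _ _
    rw [h1]
    have h4 := hP.mul h3
    have h5 : pe (MvPolynomial.pderiv i (P * MvPolynomial.X j)) y =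
        pe (MvPolynomial.pderiv i P) y * ((Function.update y i (y i) j : ℝ) : ℂ) +
          pe P (Function.update y i (y i)) * (if j = i then 1 else 0) := by
      rw [Function.update_eq_self, MvPolynomial.pderiv_mul, pe_add, pe_mul, pe_mul, pe_X,
        MvPolynomial.pderiv_X]
      congr 2
      by_cases h : j = i
      · subst h
        simp [pe]
      · rw [if_neg h, Pi.single_eq_of_ne h]
        simp [pe]
    rw [h5]
    exact h4

/-- the polynomials of degree `≤ n` -/
abbrev Vd (ι : Type) (n : ℕ) : Submodule ℂ (MvPolynomial ι ℂ) :=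
  MvPolynomial.restrictTotalDegree ι ℂ n

omit [Fintype ι] [DecidableEq ι] in
theorem der_mem {n : ℕ} {Q : MvPolynomial ι ℂ} (i : ι) (h : Q ∈ Vd ι (n + 1)) :
    MvPolynomial.pderiv i Q ∈ Vd ι n := by
  rw [MvPolynomial.mem_restrictTotalDegree] at h
  rw [Q.as_sum, map_sum]
  refine Submodule.sum_mem _ fun s hs => ?_
  rw [MvPolynomial.pderiv_monomial, MvPolynomial.mem_restrictTotalDegree]
  by_cases h0 : s i = 0
  · simp [h0]
  · refine (MvPolynomial.totalDegree_monomial_le _ _).trans ?_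
    have h1 : (s.sum fun _ e => e) ≤ n + 1 := (MvPolynomial.le_totalDegree hs).trans h
    have h2 : s = (s - Finsupp.single i 1) + Finsupp.single i 1 := by
      ext j
      by_cases hj : i = j
      · subst hj
        simp
        omega
      · simp [Finsupp.single_apply, hj]
    have h3 : (s.sum fun _ e => e) = ((s - Finsupp.single i 1).sum fun _ e => e) + 1 := by
      conv_lhs => rw [h2]
      rw [Finsupp.sum_add_index' (fun _ => rfl) (fun _ _ _ => rfl), Finsupp.sum_single_index rfl]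
    have h4 : ((s - Finsupp.single i 1).sum fun _ e => e) ≤ n := by omega
    exact h4

omit [Fintype ι] [DecidableEq ι] in
theorem mulX_mem {n : ℕ} {Q : MvPolynomial ι ℂ} (i : ι) (h : Q ∈ Vd ι n) :
    MvPolynomial.X i * Q ∈ Vd ι (n + 1) := by
  rw [MvPolynomial.mem_restrictTotalDegree] at h ⊢
  refine (MvPolynomial.totalDegree_mul _ _).trans ?_
  rw [MvPolynomial.totalDegree_X]
  omega

omit [Fintype ι] [DecidableEq ι] in
theorem Vd_mono {m n : ℕ} (hmn : m ≤ n) : Vd ι m ≤ Vd ι n := by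
  intro Q h
  rw [MvPolynomial.mem_restrictTotalDegree] at h ⊢
  omega

/-! ### the Hilbert space -/

theorem memLp_of (egc : EgcStmt) {f : (ι → ℝ) → ℂ} (hf : EG f) : MemLp f 2 (γn ι) := by
  rw [memLp_two_iff_integrable_sq_norm hf.1.aestronglyMeasurable]
  exact ((egc ι).2.1 f hf).2.2

/-- the class of a polynomial -/
def TL (egc : EgcStmt) : MvPolynomial ι ℂ →ₗ[ℂ] Lp ℂ 2 (γn ι) where
  toFun P := (memLp_of egc ((egc ι).2.2.1 P)).toLp (pe P)
  map_add' P Q := by
    rw [← MemLp.toLp_add]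
    refine (MemLp.toLp_eq_toLp_iff _ _).2 (Filter.Eventually.of_forall fun y => ?_)
    exact pe_add _ _ _
  map_smul' c P := by
    rw [RingHom.id_apply, ← MemLp.toLp_const_smul]
    refine (MemLp.toLp_eq_toLp_iff _ _).2 (Filter.Eventually.of_forall fun y => ?_)
    exact pe_smul _ _ _

theorem TL_apply (egc : EgcStmt) (P : MvPolynomial ι ℂ) :
    TL egc P = (memLp_of egc ((egc ι).2.2.1 P)).toLp (pe P) := rfl

omit [DecidableEq ι] in
theorem inner_toLp {f g : (ι → ℝ) → ℂ} (hf : MemLp f 2 (γn ι)) (hg : MemLp g 2 (γn ι)) :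
    inner ℂ (hf.toLp f) (hg.toLp g) = ∫ y, (starRingEnd ℂ) (f y) * g y ∂(γn ι) := by
  rw [L2.inner_def]
  refine integral_congr_ae ?_
  filter_upwards [hf.coeFn_toLp, hg.coeFn_toLp] with y h1 h2
  rw [h1, h2, RCLike.inner_apply']

omit [DecidableEq ι] in
theorem normsq_toLp {f : (ι → ℝ) → ℂ} (hf : MemLp f 2 (γn ι)) :
    ‖hf.toLp f‖ ^ 2 = ∫ y, ‖f y‖ ^ 2 ∂(γn ι) := by
  have h1 : inner ℂ (hf.toLp f) (hf.toLp f) = ((‖hf.toLp f‖ ^ 2 : ℝ) : ℂ) := by
    rw [inner_self_eq_norm_sq_to_K]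
    push_cast
    rfl
  rw [inner_toLp] at h1
  have h2 : (fun y => (starRingEnd ℂ) (f y) * f y) = fun y => ((‖f y‖ ^ 2 : ℝ) : ℂ) := by
    funext y
    rw [← Complex.normSq_eq_conj_mul_self, Complex.normSq_eq_norm_sq]
  rw [h2, integral_complex_ofReal] at h1
  exact (Complex.ofReal_injective h1).symm

/-- integration by parts against a polynomial -/
theorem ibp (egc : EgcStmt) {f f' : (ι → ℝ) → ℂ} (i : ι) (hf : EG f) (hf' : EG f')
    (hd : ∀ y, HasDerivAt (fun t : ℝ => f (Function.update y i t)) (f' y) (y i))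
    (Q : MvPolynomial ι ℂ) :
    ∫ y, (starRingEnd ℂ) (pe (MvPolynomial.X i * Q - MvPolynomial.pderiv i Q) y) * f y ∂(γn ι) =
      ∫ y, (starRingEnd ℂ) (pe Q y) * f' y ∂(γn ι) := by
  obtain ⟨e1, e2, e3, e4, e5⟩ := egc ι
  have hQ := (e2 _ (e3 Q)).1
  have hQ' := (e2 _ (e3 (MvPolynomial.pderiv i Q))).1
  have g1 := (e1 _ _ hQ hf).2
  have g2 := (e1 _ _ (e1 _ _ hQ' hf).2 (e1 _ _ hQ hf').2).1
  have g3 := (e5 _ _ i g1 g2 ?_).1
  · have k1 : (fun y => (starRingEnd ℂ) (pe (MvPolynomial.X i * Q - MvPolynomial.pderiv i Q) y) * f y)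
        = fun y => (y i : ℂ) * ((starRingEnd ℂ) (pe Q y) * f y) -
          (starRingEnd ℂ) (pe (MvPolynomial.pderiv i Q) y) * f y := by
      funext y
      rw [pe_sub, pe_mul, pe_X, map_sub, map_mul, Complex.conj_ofReal]
      ring
    have k2 : Integrable (fun y => (y i : ℂ) * ((starRingEnd ℂ) (pe Q y) * f y)) (γn ι) := by
      have h1 := e3 (MvPolynomial.X i)
      have h2 := (e1 _ _ h1 g1).2
      have h3 := (e2 _ h2).2.1
      refine h3.congr (Filter.Eventually.of_forall fun y => ?_)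
      beta_reduce
      rw [pe_X]
    have k3 : Integrable (fun y => (starRingEnd ℂ) (pe (MvPolynomial.pderiv i Q) y) * f y) (γn ι) :=
      (e2 _ (e1 _ _ hQ' hf).2).2.1
    have k4 : Integrable (fun y => (starRingEnd ℂ) (pe Q y) * f' y) (γn ι) :=
      (e2 _ (e1 _ _ hQ hf').2).2.1
    rw [k1, integral_sub k2 k3, g3, integral_add k3 k4]
    ring
  · intro y
    have h1 := (pe_der Q i y).star
    have h2 := h1.mul (hd y)
    simp only [Function.update_eq_self] at h2
    exact h2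

/-! ### the bases -/

theorem EG_const (c : ℂ) : EG (fun _ : ι → ℝ => c) := by
  refine ⟨continuous_const, ‖c‖, fun y => ?_⟩
  have h1 : (1 : ℝ) ≤ Real.exp (‖c‖ * ∑ i, |y i|) := by
    apply Real.one_le_exp
    have := Finset.sum_nonneg (s := Finset.univ) fun i (_ : i ∈ Finset.univ) => abs_nonneg (y i)
    positivity
  nlinarith [norm_nonneg c]

instance (n : ℕ) (egc : EgcStmt) : FiniteDimensional ℂ ((Vd ι n).map (TL (ι := ι) egc)) :=
  Module.Finite.map _ _

/-- the dimension -/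
def dm (ι : Type) [Fintype ι] [DecidableEq ι] (egc : EgcStmt) (n : ℕ) : ℕ :=
  Module.finrank ℂ ((Vd ι n).map (TL (ι := ι) egc))

/-- the orthonormal basis -/
def eb (ι : Type) [Fintype ι] [DecidableEq ι] (egc : EgcStmt) (n : ℕ) :
    OrthonormalBasis (Fin (dm ι egc n)) ℂ ((Vd ι n).map (TL (ι := ι) egc)) :=
  stdOrthonormalBasis ℂ _

theorem ex_b (egc : EgcStmt) (n : ℕ) (j : Fin (dm ι egc n)) :
    ∃ P ∈ Vd ι n, TL egc P = (eb ι egc n j : Lp ℂ 2 (γn ι)) := by
  have h := (eb ι egc n j).2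
  rw [Submodule.mem_map] at h
  exact h

/-- the basis polynomials -/
def bp (egc : EgcStmt) (n : ℕ) (j : Fin (dm ι egc n)) : MvPolynomial ι ℂ := (ex_b egc n j).choose

theorem bp_mem (egc : EgcStmt) (n : ℕ) (j : Fin (dm ι egc n)) : bp egc n j ∈ Vd ι n :=
  (ex_b egc n j).choose_spec.1

theorem bp_TL (egc : EgcStmt) (n : ℕ) (j : Fin (dm ι egc n)) :
    TL egc (bp egc n j) = (eb ι egc n j : Lp ℂ 2 (γn ι)) :=
  (ex_b egc n j).choose_spec.2

/-- the projection is a polynomial -/
def RP (egc : EgcStmt) (n : ℕ) (f : (ι → ℝ) → ℂ) : MvPolynomial ι ℂ :=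
  ∑ j, (∫ y', (starRingEnd ℂ) (pe (bp egc n j) y') * f y' ∂(γn ι)) • bp egc n j

theorem RP_mem (egc : EgcStmt) (n : ℕ) (f : (ι → ℝ) → ℂ) : RP egc n f ∈ Vd ι n :=
  Submodule.sum_mem _ fun j _ => Submodule.smul_mem _ _ (bp_mem egc n j)

theorem pr_eq (egc : EgcStmt) (n : ℕ) (f : (ι → ℝ) → ℂ) (y : ι → ℝ) :
    pr (bp egc n) f y = pe (RP egc n f) y := by
  unfold RP
  rw [pe_sum]
  rfl

theorem TL_RP (egc : EgcStmt) (n : ℕ) {f : (ι → ℝ) → ℂ} (hf : EG f) :
    TL egc (RP egc n f) = ∑ j, inner ℂ (eb ι egc n j : Lp ℂ 2 (γn ι)) ((memLp_of egc hf).toLp f) •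
      (eb ι egc n j : Lp ℂ 2 (γn ι)) := by
  unfold RP
  rw [map_sum]
  refine Finset.sum_congr rfl fun j _ => ?_
  rw [map_smul, ← bp_TL egc n j, TL_apply, inner_toLp]

theorem facts (egc : EgcStmt) (n : ℕ) {f : (ι → ℝ) → ℂ} (hf : EG f) :
    (∀ Q ∈ Vd ι n, inner ℂ (TL egc Q) (TL egc (RP egc n f)) =
      inner ℂ (TL egc Q) ((memLp_of egc hf).toLp f)) ∧
    ‖TL egc (RP egc n f)‖ ≤ ‖(memLp_of egc hf).toLp f‖ ∧
    ∀ Q ∈ Vd ι n, ‖(memLp_of egc hf).toLp f - TL egc (RP egc n f)‖ ≤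
      ‖(memLp_of egc hf).toLp f - TL egc Q‖ := by
  have h := proj_facts ((Vd ι n).map (TL (ι := ι) egc)) (eb ι egc n) ((memLp_of egc hf).toLp f)
  rw [← TL_RP egc n hf] at h
  exact ⟨fun Q hQ => h.2.1 _ (Submodule.mem_map_of_mem hQ), h.2.2.1,
    fun Q hQ => h.2.2.2 _ (Submodule.mem_map_of_mem hQ)⟩

theorem dist_sq (egc : EgcStmt) {f : (ι → ℝ) → ℂ} (hf : EG f) (Q : MvPolynomial ι ℂ) :
    ‖(memLp_of egc hf).toLp f - TL egc Q‖ ^ 2 = ∫ y, ‖f y - pe Q y‖ ^ 2 ∂(γn ι) := by
  rw [TL_apply, ← MemLp.toLp_sub, normsq_toLp]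
  rfl

theorem openPos : Measure.IsOpenPosMeasure (γn ι) := by
  haveI : Measure.IsOpenPosMeasure γ1 :=
    (gaussianReal_absolutelyContinuous' 0 one_ne_zero).isOpenPosMeasure
  infer_instance

theorem TL_inj (egc : EgcStmt) {P Q : MvPolynomial ι ℂ} (h : TL egc P = TL egc Q) (y : ι → ℝ) :
    pe P y = pe Q y := by
  rw [TL_apply, TL_apply, MemLp.toLp_eq_toLp_iff] at h
  haveI := openPos (ι := ι)
  have h1 : pe P = pe Q :=
    (Continuous.ae_eq_iff_eq (γn ι) ((egc ι).2.2.1 P).1 ((egc ι).2.2.1 Q).1).1 h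
  rw [h1]

theorem prj (egc : EgcStmt) (cpl : CplStmt) : PrjStmt := by
  intro ι _ _
  refine ⟨dm ι egc, fun n => bp egc n, ?_, ?_, ?_⟩
  · intro n f hf
    have h1 : pr (bp egc n) f = pe (RP egc n f) := funext fun y => pr_eq egc n f y
    rw [h1]
    refine ⟨(egc ι).2.2.1 _, ?_⟩
    have h2 := (facts egc n hf).2.1
    have h3 := normsq_toLp (memLp_of egc hf)
    have h4 := normsq_toLp (memLp_of egc ((egc ι).2.2.1 (RP egc n f)))
    rw [← h3, ← h4, ← TL_apply]
    exact pow_le_pow_left₀ (norm_nonneg _) h2 2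
  · intro f hf
    rw [Metric.tendsto_atTop]
    intro del hdel
    obtain ⟨P, hP⟩ := cpl ι f hf del hdel
    refine ⟨P.totalDegree, fun n hn => ?_⟩
    have hPn : P ∈ Vd ι n := by
      rw [MvPolynomial.mem_restrictTotalDegree]
      exact hn
    have h1 := (facts egc n hf).2.2 P hPn
    have h2 := pow_le_pow_left₀ (norm_nonneg _) h1 2
    rw [dist_sq egc hf, dist_sq egc hf] at h2
    have h3 : (fun y => ‖f y - pr (bp egc n) f y‖ ^ 2) = fun y => ‖f y - pe (RP egc n f) y‖ ^ 2 := by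
      funext y
      rw [pr_eq]
    rw [h3, Real.dist_eq, sub_zero, abs_of_nonneg (integral_nonneg fun y => by positivity)]
    exact h2.trans_lt hP
  · intro n f f' i hf hf' hd y
    have h1 : (fun t : ℝ => pr (bp egc (n + 1)) f (Function.update y i t)) =
        fun t => pe (RP egc (n + 1) f) (Function.update y i t) := by
      funext t
      exact pr_eq _ _ _ _
    rw [h1, pr_eq]
    have h2 : TL egc (MvPolynomial.pderiv i (RP egc (n + 1) f)) = TL egc (RP egc n f') := by
      rw [← sub_eq_zero, ← map_sub]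
      have hm : MvPolynomial.pderiv i (RP egc (n + 1) f) - RP egc n f' ∈ Vd ι n :=
        Submodule.sub_mem _ (der_mem i (RP_mem egc (n + 1) f)) (RP_mem egc n f')
      have key : ∀ Q ∈ Vd ι n, inner ℂ (TL egc Q)
          (TL egc (MvPolynomial.pderiv i (RP egc (n + 1) f) - RP egc n f')) = (0 : ℂ) := by
        intro Q hQ
        rw [map_sub, inner_sub_right, sub_eq_zero, (facts egc n hf').1 Q hQ]
        have hW : MvPolynomial.X i * Q - MvPolynomial.pderiv i Q ∈ Vd ι (n + 1) :=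
          Submodule.sub_mem _ (mulX_mem i hQ) (der_mem i (Vd_mono (by omega) hQ))
        have a1 := ibp egc i ((egc ι).2.2.1 (RP egc (n + 1) f))
          ((egc ι).2.2.1 (MvPolynomial.pderiv i (RP egc (n + 1) f)))
          (fun y => pe_der (RP egc (n + 1) f) i y) Q
        have a2 := ibp egc i hf hf' hd Q
        have a3 := (facts egc (n + 1) hf).1 _ hW
        simp only [TL_apply, inner_toLp] at a3 ⊢
        rw [← a1, ← a2, a3]
      exact inner_self_eq_zero.1 (key _ hm)
    have h3 := TL_inj egc h2 y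
    rw [← h3]
    exact pe_der _ _ _

end

end Pool.Agent.FTU.H80
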